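import Pool.Agent.H706R2.FM.Defs

/-!
# A4b: change of variables for fixed `x` (symmetric Mahler conjecture)
-/

namespace Pool.Agent.H706R2.FM

open MeasureTheory Real Set Filter Topology
open scoped RealInnerProductSpace ENNReal Pointwise

section
variable {n N : ℕ}

/-- Sub-convex combinations of a symmetric family stay in a symmetric convex set. -/
theorem A4b_sum_mem (l : Fin N → E n) (Q : Set (E n)) (hQ : Convex ℝ Q) (hQ0 : (0 : E n) ∈ Q)
    (hQs : ∀ y ∈ Q, -y ∈ Q) (hl : ∀ i, l i ∈ Q) (c : Fin N → ℝ) (hc : ∑ i, |c i| ≤ 1) :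
    ∑ i, c i • l i ∈ Q := by
  classical
  set z : Fin N → E n := fun i => if 0 ≤ c i then l i else - l i with hz
  have hzQ : ∀ i, z i ∈ Q := by
    intro i
    by_cases h : 0 ≤ c i
    · simp [hz, h, hl i]
    · simp [hz, h, hQs _ (hl i)]
  have hzc : ∀ i, c i • l i = |c i| • z i := by
    intro i
    by_cases h : 0 ≤ c i
    · simp [hz, h, abs_of_nonneg h]
    · have h' : c i < 0 := lt_of_not_ge h
      simp [hz, h, abs_of_neg h']
  have hsum : ∑ i, c i • l i = ∑ i, |c i| • z i := Finset.sum_congr rfl fun i _ => hzc i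
  rw [hsum]
  by_cases h0 : ∑ i, |c i| = 0
  · have : ∀ i, |c i| = 0 := by
      intro i
      exact (Finset.sum_eq_zero_iff_of_nonneg (fun i _ => abs_nonneg (c i))).1 h0 i
        (Finset.mem_univ i)
    simpa [this] using hQ0
  · have hpos : 0 < ∑ i, |c i| :=
      lt_of_le_of_ne (Finset.sum_nonneg fun i _ => abs_nonneg (c i)) (Ne.symm h0)
    have hcm : Finset.univ.centerMass (fun i => |c i|) z ∈ Q :=
      hQ.centerMass_mem (fun i _ => abs_nonneg (c i)) hpos (fun i _ => hzQ i)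
    have : ∑ i, |c i| • z i = (∑ i, |c i|) • Finset.univ.centerMass (fun i => |c i|) z := by
      rw [Finset.centerMass, smul_smul, mul_inv_cancel₀ h0, one_smul]
    rw [this]
    exact hQ.smul_mem_of_zero_mem hQ0 hcm ⟨hpos.le, hc⟩

/-- A4b. Change of variables for fixed `x`: strictly monotone map in `u`. `e i` are strictly
increasing functions of one variable on sets `J i` (think: `e_i(⟪l_i,x⟫, ·)`). -/
theorem A4b_slice (l : Fin N → E n) (hspan : Submodule.span ℝ (range l) = ⊤)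
    (U : Set (E n)) (hU : MeasurableSet U) (J : Fin N → Set ℝ)
    (hUJ : ∀ u ∈ U, ∀ i, ⟪l i, u⟫ ∈ J i) (e r : Fin N → ℝ → ℝ)
    (he : ∀ i, ∀ t ∈ J i, HasDerivAt (e i) (r i t) t)
    (hmono : ∀ i, StrictMonoOn (e i) (J i))
    (hr : ∀ i, ∀ t ∈ J i, 0 ≤ r i t)
    (Q : Set (E n)) (hQ : Convex ℝ Q) (hQ0 : (0 : E n) ∈ Q) (hQs : ∀ y ∈ Q, -y ∈ Q)
    (hl : ∀ i, l i ∈ Q)
    {lam : ℝ} (hlam : 0 < lam) (hsum : ∀ u ∈ U, ∑ i, |e i ⟪l i, u⟫| ≤ lam) :
    ∫⁻ u in U, ENNReal.ofReal
        (∑ i, r i ⟪l i, u⟫ • Matrix.vecMulVec (fun j => l i j) (fun j => l i j)).det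
      ≤ ENNReal.ofReal (lam ^ n) * volume Q := by
  classical
  set Y : E n → E n := fun u => ∑ i, e i ⟪l i, u⟫ • l i with hY
  set Y' : E n → (E n →L[ℝ] E n) := fun u =>
    ∑ i, (r i ⟪l i, u⟫ • innerSL ℝ (l i)).smulRight (l i) with hY'
  have hderiv : ∀ u ∈ U, HasFDerivWithinAt Y (Y' u) U u := by
    intro u hu
    refine HasFDerivAt.hasFDerivWithinAt ?_
    rw [hY, hY']
    refine HasFDerivAt.fun_sum fun i _ => ?_
    have h1 : HasFDerivAt (fun v : E n => ⟪l i, v⟫) (innerSL ℝ (l i)) u :=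
      (innerSL ℝ (l i)).hasFDerivAt
    have h2 : HasFDerivAt (fun v : E n => e i ⟪l i, v⟫) (r i ⟪l i, u⟫ • innerSL ℝ (l i)) u :=
      (he i _ (hUJ u hu i)).comp_hasFDerivAt u h1
    exact h2.smul_const (l i)
  have hinj : InjOn Y U := by
    intro u hu v hv huv
    by_contra hne
    have hex : ∃ i, ⟪l i, u⟫ ≠ ⟪l i, v⟫ := by
      by_contra hcon
      push Not at hcon
      apply hne
      have hall : ∀ x ∈ Submodule.span ℝ (range l), ⟪x, u - v⟫ = 0 := by
        intro x hx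
        induction hx using Submodule.span_induction with
        | mem x hx =>
          obtain ⟨i, rfl⟩ := hx
          rw [inner_sub_right, hcon i, sub_self]
        | zero => simp
        | add x y _ _ hx hy => rw [inner_add_left, hx, hy, add_zero]
        | smul a x _ hx => rw [inner_smul_left, hx, mul_zero]
      have h0 := hall (u - v) (by rw [hspan]; trivial)
      exact sub_eq_zero.1 (inner_self_eq_zero.1 h0)
    obtain ⟨i₀, hi₀⟩ := hex
    have hterm : ∀ i, 0 ≤ (e i ⟪l i, u⟫ - e i ⟪l i, v⟫) * (⟪l i, u⟫ - ⟪l i, v⟫) := by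
      intro i
      rcases lt_trichotomy ⟪l i, u⟫ ⟪l i, v⟫ with h | h | h
      · have := hmono i (hUJ u hu i) (hUJ v hv i) h
        nlinarith
      · rw [h]; simp
      · have := hmono i (hUJ v hv i) (hUJ u hu i) h
        nlinarith
    have hterm0 : 0 < (e i₀ ⟪l i₀, u⟫ - e i₀ ⟪l i₀, v⟫) * (⟪l i₀, u⟫ - ⟪l i₀, v⟫) := by
      rcases lt_or_gt_of_ne hi₀ with h | h
      · have := hmono i₀ (hUJ u hu i₀) (hUJ v hv i₀) h
        nlinarith
      · have := hmono i₀ (hUJ v hv i₀) (hUJ u hu i₀) h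
        nlinarith
    have hpos : 0 < ∑ i, (e i ⟪l i, u⟫ - e i ⟪l i, v⟫) * (⟪l i, u⟫ - ⟪l i, v⟫) :=
      Finset.sum_pos' (fun i _ => hterm i) ⟨i₀, Finset.mem_univ _, hterm0⟩
    have heq : ⟪Y u - Y v, u - v⟫ =
        ∑ i, (e i ⟪l i, u⟫ - e i ⟪l i, v⟫) * (⟪l i, u⟫ - ⟪l i, v⟫) := by
      rw [hY]
      simp only
      rw [← Finset.sum_sub_distrib, sum_inner]
      refine Finset.sum_congr rfl fun i _ => ?_
      rw [← sub_smul, real_inner_smul_left, inner_sub_right]
    rw [huv, sub_self, inner_zero_left] at heq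
    linarith
  have hdet : ∀ u, (Y' u).det =
      (∑ i, r i ⟪l i, u⟫ • Matrix.vecMulVec (fun j => l i j) (fun j => l i j)).det := by
    intro u
    have hm : LinearMap.toMatrix (EuclideanSpace.basisFun (Fin n) ℝ).toBasis
        (EuclideanSpace.basisFun (Fin n) ℝ).toBasis (Y' u : E n →ₗ[ℝ] E n) =
        ∑ i, r i ⟪l i, u⟫ • Matrix.vecMulVec (fun j => l i j) (fun j => l i j) := by
      ext a b
      rw [LinearMap.toMatrix_apply]
      simp only [hY', Matrix.sum_apply, Matrix.smul_apply, Matrix.vecMulVec_apply, smul_eq_mul]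
      simp
      refine Finset.sum_congr rfl fun i _ => ?_
      have hs : ⟪l i, EuclideanSpace.single b (1 : ℝ)⟫ = l i b := by
        rw [real_inner_comm, EuclideanSpace.inner_single_left]; simp
      rw [hs]
      ring
    rw [← hm, LinearMap.det_toMatrix]
  have hnn : ∀ u ∈ U, 0 ≤
      (∑ i, r i ⟪l i, u⟫ • Matrix.vecMulVec (fun j => l i j) (fun j => l i j)).det := by
    intro u hu
    refine Matrix.PosSemidef.det_nonneg ?_
    refine Matrix.posSemidef_sum _ fun i _ => ?_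
    refine Matrix.PosSemidef.smul ?_ (hr i _ (hUJ u hu i))
    have := Matrix.posSemidef_vecMulVec_self_star (R := ℝ) (fun j => l i j)
    simpa using this
  have hchange := MeasureTheory.lintegral_abs_det_fderiv_eq_addHaar_image (volume : Measure (E n))
    hU hderiv hinj
  have hint : ∫⁻ u in U, ENNReal.ofReal
        (∑ i, r i ⟪l i, u⟫ • Matrix.vecMulVec (fun j => l i j) (fun j => l i j)).det =
      volume (Y '' U) := by
    rw [← hchange]
    refine setLIntegral_congr_fun hU fun u hu => ?_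
    simp only
    rw [hdet u, abs_of_nonneg (hnn u hu)]
  rw [hint]
  have hsub : Y '' U ⊆ lam • Q := by
    rintro _ ⟨u, hu, rfl⟩
    rw [Set.mem_smul_set_iff_inv_smul_mem₀ hlam.ne']
    have : lam⁻¹ • Y u = ∑ i, (lam⁻¹ * e i ⟪l i, u⟫) • l i := by
      rw [hY, Finset.smul_sum]
      refine Finset.sum_congr rfl fun i _ => ?_
      rw [smul_smul]
    rw [this]
    refine A4b_sum_mem l Q hQ hQ0 hQs hl _ ?_
    have h1 : ∑ i, |lam⁻¹ * e i ⟪l i, u⟫| = lam⁻¹ * ∑ i, |e i ⟪l i, u⟫| := by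
      rw [Finset.mul_sum]
      refine Finset.sum_congr rfl fun i _ => ?_
      rw [abs_mul, abs_of_pos (inv_pos.2 hlam)]
    rw [h1]
    calc lam⁻¹ * ∑ i, |e i ⟪l i, u⟫| ≤ lam⁻¹ * lam :=
          mul_le_mul_of_nonneg_left (hsum u hu) (inv_pos.2 hlam).le
      _ = 1 := inv_mul_cancel₀ hlam.ne'
  calc volume (Y '' U) ≤ volume (lam • Q) := measure_mono hsub
    _ = ENNReal.ofReal |lam ^ Module.finrank ℝ (E n)| * volume Q := Measure.addHaar_smul _ _ _
    _ = ENNReal.ofReal (lam ^ n) * volume Q := by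
        rw [finrank_euclideanSpace_fin, abs_of_pos (pow_pos hlam n)]

end

end Pool.Agent.H706R2.FM
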